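import Pool.Agent.Work.MP_0fc146_gt_helper68.Tree1

/-!
# Stmt_Tree: coordinates of the triangles
-/

noncomputable section

open scoped Topology UpperHalfPlane MatrixGroups
open UpperHalfPlane

namespace Pool.Agent.CircleShift

namespace TreeX

/-! ### the point with given `(A, B, C)` -/

def Zf (A B C : ℝ) : ℍ :=
  if h : 0 < C ∧ 0 < A * C - B ^ 2 then
    ⟨⟨B / C, √(A * C - B ^ 2) / C⟩, div_pos (Real.sqrt_pos.2 h.2) h.1⟩
  else I

theorem Zf_re {A B C : ℝ} (h : 0 < C ∧ 0 < A * C - B ^ 2) : (Zf A B C).re = B / C := by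
  unfold Zf; rw [dif_pos h]; rfl

theorem Zf_im {A B C : ℝ} (h : 0 < C ∧ 0 < A * C - B ^ 2) :
    (Zf A B C).im = √(A * C - B ^ 2) / C := by
  unfold Zf; rw [dif_pos h]; rfl

/-- the coordinates of `Zf`, up to the factor `1 / √(AC - B²)` -/
theorem f_Zf {A B C : ℝ} (h : 0 < C ∧ 0 < A * C - B ^ 2) :
    fA (Zf A B C) = A / √(A * C - B ^ 2) ∧ fB (Zf A B C) = B / √(A * C - B ^ 2) ∧
      fC (Zf A B C) = C / √(A * C - B ^ 2) := by
  obtain ⟨h1, h2⟩ := h
  have hs := Real.sqrt_pos.2 h2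
  have hsq : √(A * C - B ^ 2) ^ 2 = A * C - B ^ 2 := Real.sq_sqrt h2.le
  unfold fA fB fC
  rw [Zf_re ⟨h1, h2⟩, Zf_im ⟨h1, h2⟩]
  refine ⟨?_, ?_, ?_⟩
  · rw [div_pow, div_pow, hsq]
    field_simp
    ring
  · field_simp
  · field_simp

/-- points with proportional coordinates are equal -/
theorem ext_f {z w : ℍ} (t : ℝ) (hA : fA z = t * fA w) (hB : fB z = t * fB w)
    (hC : fC z = t * fC w) : z = w := by
  have h1 := det_eq z
  have h2 := det_eq w
  have hz := fC_pos z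
  have hw := fC_pos w
  have ht : t ^ 2 = 1 := by
    rw [hA, hB, hC] at h1
    linear_combination h1 - t ^ 2 * h2
  have ht0 : 0 < t := by
    by_contra h
    have : t * fC w ≤ 0 := mul_nonpos_of_nonpos_of_nonneg (not_lt.1 h) hw.le
    linarith
  have ht1 : t = 1 := by nlinarith
  subst ht1
  rw [one_mul] at hB hC
  unfold fB at hB
  unfold fC at hC
  have e1 : z.im = w.im := by
    rw [one_div, one_div] at hC
    exact inv_injective hC
  have e2 : z.re = w.re := by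
    rw [e1] at hB
    exact (div_left_inj' w.im_ne_zero).1 hB
  exact UpperHalfPlane.ext_re_im e2 e1

theorem Zf_f (z : ℍ) : Zf (fA z) (fB z) (fC z) = z := by
  have h := det_eq z
  have h1 : 0 < fC z ∧ 0 < fA z * fC z - fB z ^ 2 := ⟨fC_pos z, by rw [h]; exact one_pos⟩
  obtain ⟨e1, e2, e3⟩ := f_Zf h1
  rw [h, Real.sqrt_one, div_one] at e1 e2 e3
  exact ext_f 1 (by rw [e1, one_mul]) (by rw [e2, one_mul]) (by rw [e3, one_mul])

/-! ### the triangles -/

/-- `(A, B, C)` of the point `α Q + β P_k + γ P_{k+1}` -/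
def MA (k : Fin 8) (α β γ : ℝ) : ℝ := α + β * vp k ^ 2 + γ * vp (k + 1) ^ 2
def MB (k : Fin 8) (β γ : ℝ) : ℝ := β * (vp k * vq k) + γ * (vp (k + 1) * vq (k + 1))
def MC (k : Fin 8) (α β γ : ℝ) : ℝ := α + β * vq k ^ 2 + γ * vq (k + 1) ^ 2

/-- the triangle of the octagon `1` -/
def pt0 (k : Fin 8) (d : ℝ × ℝ) : ℍ :=
  Zf (MA k (1 - d.1 - d.2) d.1 d.2) (MB k d.1 d.2) (MC k (1 - d.1 - d.2) d.1 d.2)

def pt (h : G) (k : Fin 8) (d : ℝ × ℝ) : ℍ := h • pt0 k d

theorem det_M (k : Fin 8) (α β γ : ℝ) :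
    MA k α β γ * MC k α β γ - MB k β γ ^ 2 = α ^ 2 + α * β * (vp k ^ 2 + vq k ^ 2) +
      α * γ * (vp (k + 1) ^ 2 + vq (k + 1) ^ 2) + β * γ := by
  unfold MA MB MC
  fin_cases k <;> simp [vp, vq] <;> ring

theorem MC_pos (k : Fin 8) {α β γ : ℝ} (hα : 0 ≤ α) (hβ : 0 ≤ β) (hγ : 0 ≤ γ)
    (h : 0 < α ∨ (0 < β ∧ 0 < γ)) : 0 < MC k α β γ := by
  unfold MC
  rcases h with h | ⟨h1, h2⟩
  · positivity
  · fin_cases k <;> simp [vq] <;> nlinarith

theorem vv_ge (k : Fin 8) : 1 ≤ vp k ^ 2 + vq k ^ 2 ∧ vp k ^ 2 + vq k ^ 2 ≤ 5 := by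
  fin_cases k <;> simp [vp, vq] <;> norm_num

theorem pos_M (k : Fin 8) {α β γ : ℝ} (hα : 0 ≤ α) (hβ : 0 ≤ β) (hγ : 0 ≤ γ)
    (h : 0 < α ∨ (0 < β ∧ 0 < γ)) : 0 < MC k α β γ ∧ 0 < MA k α β γ * MC k α β γ - MB k β γ ^ 2 := by
  refine ⟨MC_pos k hα hβ hγ h, ?_⟩
  rw [det_M]
  have h1 := (vv_ge k).1
  have h2 := (vv_ge (k + 1)).1
  have e1 : 0 ≤ α * β * (vp k ^ 2 + vq k ^ 2) := by positivity
  have e2 : 0 ≤ α * γ * (vp (k + 1) ^ 2 + vq (k + 1) ^ 2) := by positivity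
  rcases h with h | ⟨h3, h4⟩
  · have : 0 < α ^ 2 := by positivity
    have : 0 ≤ β * γ := by positivity
    linarith
  · have : 0 ≤ α ^ 2 := by positivity
    have : 0 < β * γ := by positivity
    linarith

theorem Tset_pos {d : ℝ × ℝ} (hd : d ∈ Tset) : 0 ≤ 1 - d.1 - d.2 ∧ 0 ≤ d.1 ∧ 0 ≤ d.2 ∧
    (0 < 1 - d.1 - d.2 ∨ (0 < d.1 ∧ 0 < d.2)) := by
  obtain ⟨h1, h2, h3, h4, h5⟩ := hd
  refine ⟨by linarith, h1, h2, ?_⟩
  by_cases h : d.1 + d.2 = 1
  · right
    constructor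
    · rcases h1.lt_or_eq with h1 | h1
      · exact h1
      · exact absurd (by linarith : d.2 = 1) h5
    · rcases h2.lt_or_eq with h2 | h2
      · exact h2
      · exact absurd (by linarith : d.1 = 1) h4
  · left
    have : d.1 + d.2 < 1 := lt_of_le_of_ne h3 h
    linarith

/-- the basic description of `pt0` -/
theorem f_pt0 (k : Fin 8) {d : ℝ × ℝ} (hd : d ∈ Tset) : ∃ t : ℝ, 0 < t ∧
    fA (pt0 k d) = t * MA k (1 - d.1 - d.2) d.1 d.2 ∧ fB (pt0 k d) = t * MB k d.1 d.2 ∧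
      fC (pt0 k d) = t * MC k (1 - d.1 - d.2) d.1 d.2 := by
  obtain ⟨h1, h2, h3, h4⟩ := Tset_pos hd
  have h5 := pos_M k h1 h2 h3 h4
  obtain ⟨e1, e2, e3⟩ := f_Zf h5
  refine ⟨1 / √(MA k (1 - d.1 - d.2) d.1 d.2 * MC k (1 - d.1 - d.2) d.1 d.2 - MB k d.1 d.2 ^ 2),
    div_pos one_pos (Real.sqrt_pos.2 h5.2), ?_, ?_, ?_⟩
  · unfold pt0; rw [e1]; ring
  · unfold pt0; rw [e2]; ring
  · unfold pt0; rw [e3]; ring

/-- conversely, a point with these coordinates -/
theorem eq_pt0 (k : Fin 8) {d : ℝ × ℝ} (hd : d ∈ Tset) (z : ℍ) (t : ℝ)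
    (hA : fA z = t * MA k (1 - d.1 - d.2) d.1 d.2) (hB : fB z = t * MB k d.1 d.2)
    (hC : fC z = t * MC k (1 - d.1 - d.2) d.1 d.2) : pt0 k d = z := by
  obtain ⟨s, hs, e1, e2, e3⟩ := f_pt0 k hd
  have ht : 0 < t := by
    by_contra h
    have h1 := fC_pos z
    have h2 := fC_pos (pt0 k d)
    rw [e3] at h2
    have h3 : 0 < MC k (1 - d.1 - d.2) d.1 d.2 := by
      by_contra h'
      have := mul_nonpos_of_nonneg_of_nonpos hs.le (not_lt.1 h')
      linarith
    have := mul_nonpos_of_nonpos_of_nonneg (not_lt.1 h) h3.le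
    linarith
  apply ext_f (s / t)
  · rw [e1, hA]; field_simp
  · rw [e2, hB]; field_simp
  · rw [e3, hC]; field_simp


/-! ### linear algebra of the triangles -/

def s (k : Fin 8) (z : ℍ) : ℝ := Sf k (fA z) (fB z) (fC z)

/-- determinants -/
def Dk (k : Fin 8) : ℝ := ![2, 3, 3, 2, 2, 3, 3, 2] k

theorem Dk_ge (k : Fin 8) : 2 ≤ Dk k ∧ Dk k ≤ 3 := by
  fin_cases k <;> simp [Dk] <;> norm_num

theorem Lf_M (k : Fin 8) (α β γ : ℝ) :
    Lf k (MA k α β γ) (MB k β γ) (MC k α β γ) = Dk k * α := by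
  unfold MA MB MC
  fin_cases k <;> simp [Lf, vp, vq, Dk] <;> ring

theorem Sf_M (k : Fin 8) (α β γ : ℝ) :
    Sf k (MA k α β γ) (MB k β γ) (MC k α β γ) = -(Dk k * γ) := by
  unfold MA MB MC
  fin_cases k <;> simp [Sf, vp, vq, Dk] <;> ring

theorem Sf_M' (k : Fin 8) (α β γ : ℝ) :
    Sf (k + 1) (MA k α β γ) (MB k β γ) (MC k α β γ) = Dk k * β := by
  unfold MA MB MC
  fin_cases k <;> simp [Sf, vp, vq, Dk] <;> ring

theorem Sf_add4 (k : Fin 8) (A B C : ℝ) : Sf (k + 4) A B C = -Sf k A B C := by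
  fin_cases k <;> simp [Sf] <;> ring

/-- the coordinates with respect to the triangle `k` -/
theorem M_coord (k : Fin 8) (A B C : ℝ) :
    MA k (Lf k A B C) (Sf (k + 1) A B C) (-Sf k A B C) = Dk k * A ∧
    MB k (Sf (k + 1) A B C) (-Sf k A B C) = Dk k * B ∧
    MC k (Lf k A B C) (Sf (k + 1) A B C) (-Sf k A B C) = Dk k * C := by
  unfold MA MB MC
  refine ⟨?_, ?_, ?_⟩ <;> fin_cases k <;> simp [Lf, Sf, vp, vq, Dk] <;> ring

theorem Lf_smul (k : Fin 8) (t A B C : ℝ) : Lf k (t * A) (t * B) (t * C) = t * Lf k A B C := by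
  fin_cases k <;> simp [Lf] <;> ring

theorem Sf_smul (k : Fin 8) (t A B C : ℝ) : Sf k (t * A) (t * B) (t * C) = t * Sf k A B C := by
  fin_cases k <;> simp [Sf] <;> ring

theorem M_smul (k : Fin 8) (t α β γ : ℝ) : MA k (t * α) (t * β) (t * γ) = t * MA k α β γ ∧
    MB k (t * β) (t * γ) = t * MB k β γ ∧ MC k (t * α) (t * β) (t * γ) = t * MC k α β γ := by
  unfold MA MB MC
  refine ⟨?_, ?_, ?_⟩ <;> ring

/-- values of the sides at the vertices -/
def cP (b k : Fin 8) : ℝ := Lf b (vp k ^ 2) (vp k * vq k) (vq k ^ 2)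

theorem cP_pos (b k : Fin 8) : 0 ≤ cP b k ∧ (cP b k = 0 → k = b ∨ k = b + 1) := by
  have key : ∀ b k : Fin 8, (0 : ℤ) ≤ ltab b 0 * (![1, -2, -1, -1, 0, 1, 1, 2] k) ^ 2 +
      ltab b 1 * ((![1, -2, -1, -1, 0, 1, 1, 2] k) * (![0, 1, 1, 2, 1, 2, 1, 1] k)) +
      ltab b 2 * (![0, 1, 1, 2, 1, 2, 1, 1] k) ^ 2 ∧
      (ltab b 0 * (![1, -2, -1, -1, 0, 1, 1, 2] k) ^ 2 +
      ltab b 1 * ((![1, -2, -1, -1, 0, 1, 1, 2] k) * (![0, 1, 1, 2, 1, 2, 1, 1] k)) +
      ltab b 2 * (![0, 1, 1, 2, 1, 2, 1, 1] k) ^ 2 = 0 → k = b ∨ k = b + 1) := by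
    decide +kernel
  have e : cP b k = ((ltab b 0 * (![1, -2, -1, -1, 0, 1, 1, 2] k) ^ 2 +
      ltab b 1 * ((![1, -2, -1, -1, 0, 1, 1, 2] k) * (![0, 1, 1, 2, 1, 2, 1, 1] k)) +
      ltab b 2 * (![0, 1, 1, 2, 1, 2, 1, 1] k) ^ 2 : ℤ) : ℝ) := by
    have e1 : vp k = ((![1, -2, -1, -1, 0, 1, 1, 2] k : ℤ) : ℝ) := by
      fin_cases k <;> simp [vp]
    have e2 : vq k = ((![0, 1, 1, 2, 1, 2, 1, 1] k : ℤ) : ℝ) := by
      fin_cases k <;> simp [vq]
    unfold cP
    rw [Lf_eq, e1, e2]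
    push_cast
    rfl
  rw [e]
  obtain ⟨h1, h2⟩ := key b k
  exact ⟨by exact_mod_cast h1, fun h => h2 (by exact_mod_cast h)⟩

theorem Lf_M_eq (b k : Fin 8) (α β γ : ℝ) : Lf b (MA k α β γ) (MB k β γ) (MC k α β γ) =
    Dk b * α + cP b k * β + cP b (k + 1) * γ := by
  have e : Lf b 1 0 1 = Dk b := by
    fin_cases b <;> simp [Lf, Dk] <;> norm_num
  rw [← e]
  unfold cP MA MB MC
  simp only [Lf_eq]
  ring

/-- the sides are nonnegative on the octagon -/
theorem Lf_M_nonneg (b k : Fin 8) {α β γ : ℝ} (hα : 0 ≤ α) (hβ : 0 ≤ β) (hγ : 0 ≤ γ) :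
    0 ≤ Lf b (MA k α β γ) (MB k β γ) (MC k α β γ) ∧
    (Lf b (MA k α β γ) (MB k β γ) (MC k α β γ) = 0 → (0 < α ∨ (0 < β ∧ 0 < γ)) →
      α = 0 ∧ k = b) := by
  rw [Lf_M_eq]
  have hD := (Dk_ge b).1
  have h1 := cP_pos b k
  have h2 := cP_pos b (k + 1)
  have e0 : 0 ≤ Dk b * α := by positivity
  have e1 : 0 ≤ cP b k * β := mul_nonneg h1.1 hβ
  have e2 : 0 ≤ cP b (k + 1) * γ := mul_nonneg h2.1 hγ
  refine ⟨by linarith, fun h h' => ?_⟩
  have hα0 : α = 0 := by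
    have : Dk b * α = 0 := by linarith
    rcases mul_eq_zero.1 this with h | h
    · linarith
    · exact h
  refine ⟨hα0, ?_⟩
  rcases h' with h' | ⟨hβ', hγ'⟩
  · linarith
  · have k1 : cP b k = 0 := by
      have : cP b k * β = 0 := by linarith
      rcases mul_eq_zero.1 this with h | h
      · exact h
      · linarith
    have k2 : cP b (k + 1) = 0 := by
      have : cP b (k + 1) * γ = 0 := by linarith
      rcases mul_eq_zero.1 this with h | h
      · exact h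
      · linarith
    have key : ∀ b k : Fin 8, (k = b ∨ k = b + 1) → (k + 1 = b ∨ k + 1 = b + 1) → k = b := by
      decide +kernel
    exact key b k (h1.2 k1) (h2.2 k2)

/-- values of the spokes at the vertices -/
def sP (j k : Fin 8) : ℝ := Sf j (vp k ^ 2) (vp k * vq k) (vq k ^ 2)

def stab : Fin 8 → Fin 3 → ℤ := ![![0, 1, 0], ![2, 3, -2], ![1, 0, -1], ![2, -3, -2], ![0, -1, 0],
  ![-2, -3, 2], ![-1, 0, 1], ![-2, 3, 2]]

theorem Sf_eq (b : Fin 8) (A B C : ℝ) :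
    Sf b A B C = (stab b 0 : ℝ) * A + (stab b 1 : ℝ) * B + (stab b 2 : ℝ) * C := by
  fin_cases b <;> simp [Sf, stab] <;> ring

def sPz (j k : Fin 8) : ℤ := stab j 0 * (![1, -2, -1, -1, 0, 1, 1, 2] k) ^ 2 +
      stab j 1 * ((![1, -2, -1, -1, 0, 1, 1, 2] k) * (![0, 1, 1, 2, 1, 2, 1, 1] k)) +
      stab j 2 * (![0, 1, 1, 2, 1, 2, 1, 1] k) ^ 2

theorem sP_eq (j k : Fin 8) : sP j k = (sPz j k : ℝ) := by
  have e1 : vp k = ((![1, -2, -1, -1, 0, 1, 1, 2] k : ℤ) : ℝ) := by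
    fin_cases k <;> simp [vp]
  have e2 : vq k = ((![0, 1, 1, 2, 1, 2, 1, 1] k : ℤ) : ℝ) := by
    fin_cases k <;> simp [vq]
  unfold sP sPz
  rw [Sf_eq, e1, e2]
  push_cast
  rfl

theorem sPz_sgn : ∀ j k : Fin 8, ((j - k).val = 0 ∨ (j - k).val = 4 → sPz j k = 0) ∧
    ((1 ≤ (j - k).val ∧ (j - k).val ≤ 3) → 0 < sPz j k) ∧
    (5 ≤ (j - k).val → sPz j k < 0) := by decide +kernel

theorem sP_zero {j k : Fin 8} (h : (j - k).val = 0 ∨ (j - k).val = 4) : sP j k = 0 := by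
  rw [sP_eq]; exact_mod_cast (sPz_sgn j k).1 h

theorem sP_pos {j k : Fin 8} (h : 1 ≤ (j - k).val ∧ (j - k).val ≤ 3) : 0 < sP j k := by
  rw [sP_eq]; exact_mod_cast (sPz_sgn j k).2.1 h

theorem sP_neg {j k : Fin 8} (h : 5 ≤ (j - k).val) : sP j k < 0 := by
  rw [sP_eq]; exact_mod_cast (sPz_sgn j k).2.2 h

theorem Sf_M_eq (j k : Fin 8) (α β γ : ℝ) : Sf j (MA k α β γ) (MB k β γ) (MC k α β γ) =
    sP j k * β + sP j (k + 1) * γ := by
  have e : (stab j 0 : ℝ) + (stab j 2 : ℝ) = 0 := by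
    have : ∀ j, stab j 0 + stab j 2 = 0 := by decide +kernel
    exact_mod_cast this j
  unfold sP MA MB MC
  simp only [Sf_eq]
  linear_combination α * e

theorem two_zero {a b x y : ℝ} (ha : 0 < a) (hb : 0 < b) (hx : 0 ≤ x) (hy : 0 ≤ y)
    (h : a * x + b * y = 0) : x = 0 ∧ y = 0 := by
  have h1 := mul_nonneg ha.le hx
  have h2 := mul_nonneg hb.le hy
  have e1 : a * x = 0 := by linarith
  have e2 : b * y = 0 := by linarith
  exact ⟨(mul_eq_zero.1 e1).resolve_left ha.ne', (mul_eq_zero.1 e2).resolve_left hb.ne'⟩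

theorem three_zero {a b c x y z : ℝ} (ha : 0 < a) (hb : 0 < b) (hc : 0 < c) (hx : 0 ≤ x)
    (hy : 0 ≤ y) (hz : 0 ≤ z) (h : a * x + b * y + c * z = 0) : x = 0 ∧ y = 0 ∧ z = 0 := by
  have h1 := mul_nonneg ha.le hx
  have h2 := mul_nonneg hb.le hy
  have h3 := mul_nonneg hc.le hz
  have e1 : a * x = 0 := by linarith
  have e2 : b * y = 0 := by linarith
  have e3 : c * z = 0 := by linarith
  exact ⟨(mul_eq_zero.1 e1).resolve_left ha.ne', (mul_eq_zero.1 e2).resolve_left hb.ne',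
    (mul_eq_zero.1 e3).resolve_left hc.ne'⟩

theorem diff8 : ∀ k k' : Fin 8, k' = k ∨ k' = k + 1 ∨ k' = k + 2 ∨ k' = k + 3 ∨ k' = k + 4 ∨
    k' = k + 5 ∨ k' = k + 6 ∨ k' = k + 7 := by decide +kernel

/-- two triangles of the octagon meet along a spoke or in the center -/
theorem sector (k k' : Fin 8) {α β γ α' β' γ' : ℝ} (hβ : 0 ≤ β) (hγ : 0 ≤ γ)
    (hβ' : 0 ≤ β') (hγ' : 0 ≤ γ') (hA : MA k α β γ = MA k' α' β' γ')
    (hB : MB k β γ = MB k' β' γ') (hC : MC k α β γ = MC k' α' β' γ') :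
    (k = k' ∧ α = α' ∧ β = β' ∧ γ = γ') ∨
    (k' = k + 1 ∧ α = α' ∧ β = 0 ∧ γ' = 0 ∧ γ = β') ∨
    (k = k' + 1 ∧ α = α' ∧ γ = 0 ∧ β' = 0 ∧ β = γ') ∨
    (α = α' ∧ β = 0 ∧ γ = 0 ∧ β' = 0 ∧ γ' = 0) := by
  have hS : ∀ j, sP j k * β + sP j (k + 1) * γ = sP j k' * β' + sP j (k' + 1) * γ' := by
    intro j
    rw [← Sf_M_eq j k α, ← Sf_M_eq j k' α', hA, hB, hC]
  unfold MA at hA
  rcases diff8 k k' with rfl | rfl | rfl | rfl | rfl | rfl | rfl | rfl
  · left
    have h1 := hS k'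
    have h2 := hS (k' + 1)
    rw [sP_zero ((by decide : ∀ k : Fin 8, (k - k).val = 0 ∨ (k - k).val = 4) k')] at h1
    rw [sP_zero ((by decide : ∀ k : Fin 8, (k + 1 - (k + 1)).val = 0 ∨
      (k + 1 - (k + 1)).val = 4) k')] at h2
    have n1 := sP_neg ((by decide : ∀ k : Fin 8, 5 ≤ (k - (k + 1)).val) k')
    have n2 := sP_pos ((by decide : ∀ k : Fin 8, 1 ≤ (k + 1 - k).val ∧ (k + 1 - k).val ≤ 3) k')
    have e1 : γ = γ' := mul_left_cancel₀ n1.ne (by linarith)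
    have e2 : β = β' := mul_left_cancel₀ n2.ne' (by linarith)
    subst e1 e2
    exact ⟨rfl, by linarith, rfl, rfl⟩
  · right; left
    have h1 := hS (k + 1)
    have h2 := hS k
    rw [sP_zero ((by decide : ∀ k : Fin 8, (k + 1 - (k + 1)).val = 0 ∨
      (k + 1 - (k + 1)).val = 4) k)] at h1
    rw [sP_zero ((by decide : ∀ k : Fin 8, (k - k).val = 0 ∨ (k - k).val = 4) k)] at h2
    have n1 := sP_pos ((by decide : ∀ k : Fin 8, 1 ≤ (k + 1 - k).val ∧ (k + 1 - k).val ≤ 3) k)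
    have n2 := sP_neg ((by decide : ∀ k : Fin 8, 5 ≤ (k + 1 - (k + 1 + 1)).val) k)
    obtain ⟨e1, e2⟩ := two_zero (a := sP (k + 1) k) (b := -sP (k + 1) (k + 1 + 1)) n1
      (by linarith) hβ hγ' (by linarith)
    subst e1 e2
    have n3 := sP_neg ((by decide : ∀ k : Fin 8, 5 ≤ (k - (k + 1)).val) k)
    have e3 : γ = β' := mul_left_cancel₀ n3.ne (by linarith)
    subst e3
    exact ⟨rfl, by linarith, rfl, rfl, rfl⟩
  · right; right; right
    have h1 := hS (k + 2)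
    rw [sP_zero ((by decide : ∀ k : Fin 8, (k + 2 - (k + 2)).val = 0 ∨
      (k + 2 - (k + 2)).val = 4) k)] at h1
    have n1 := sP_pos ((by decide : ∀ k : Fin 8, 1 ≤ (k + 2 - k).val ∧ (k + 2 - k).val ≤ 3) k)
    have n2 := sP_pos ((by decide : ∀ k : Fin 8, 1 ≤ (k + 2 - (k + 1)).val ∧
      (k + 2 - (k + 1)).val ≤ 3) k)
    have n3 := sP_neg ((by decide : ∀ k : Fin 8, 5 ≤ (k + 2 - (k + 2 + 1)).val) k)
    obtain ⟨e1, e2, e3⟩ := three_zero (c := -sP (k + 2) (k + 2 + 1)) n1 n2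
      (by linarith) hβ hγ hγ' (by linarith)
    subst e1 e2 e3
    have h2 := hS (k + 3)
    have n4 := sP_pos ((by decide : ∀ k : Fin 8, 1 ≤ (k + 3 - (k + 2)).val ∧
      (k + 3 - (k + 2)).val ≤ 3) k)
    have e4 : β' = 0 := mul_left_cancel₀ n4.ne' (by linarith)
    subst e4
    exact ⟨by linarith, rfl, rfl, rfl, rfl⟩
  · right; right; right
    have h1 := hS (k + 3)
    rw [sP_zero ((by decide : ∀ k : Fin 8, (k + 3 - (k + 3)).val = 0 ∨
      (k + 3 - (k + 3)).val = 4) k)] at h1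
    have n1 := sP_pos ((by decide : ∀ k : Fin 8, 1 ≤ (k + 3 - k).val ∧ (k + 3 - k).val ≤ 3) k)
    have n2 := sP_pos ((by decide : ∀ k : Fin 8, 1 ≤ (k + 3 - (k + 1)).val ∧
      (k + 3 - (k + 1)).val ≤ 3) k)
    have n3 := sP_neg ((by decide : ∀ k : Fin 8, 5 ≤ (k + 3 - (k + 3 + 1)).val) k)
    obtain ⟨e1, e2, e3⟩ := three_zero (c := -sP (k + 3) (k + 3 + 1)) n1 n2
      (by linarith) hβ hγ hγ' (by linarith)
    subst e1 e2 e3
    have h2 := hS (k + 4)
    have n4 := sP_pos ((by decide : ∀ k : Fin 8, 1 ≤ (k + 4 - (k + 3)).val ∧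
      (k + 4 - (k + 3)).val ≤ 3) k)
    have e4 : β' = 0 := mul_left_cancel₀ n4.ne' (by linarith)
    subst e4
    exact ⟨by linarith, rfl, rfl, rfl, rfl⟩
  · right; right; right
    have h1 := hS (k + 4)
    rw [sP_zero ((by decide : ∀ k : Fin 8, (k + 4 - k).val = 0 ∨ (k + 4 - k).val = 4) k),
      sP_zero ((by decide : ∀ k : Fin 8, (k + 4 - (k + 4)).val = 0 ∨
      (k + 4 - (k + 4)).val = 4) k)] at h1
    have n1 := sP_pos ((by decide : ∀ k : Fin 8, 1 ≤ (k + 4 - (k + 1)).val ∧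
      (k + 4 - (k + 1)).val ≤ 3) k)
    have n2 := sP_neg ((by decide : ∀ k : Fin 8, 5 ≤ (k + 4 - (k + 4 + 1)).val) k)
    obtain ⟨e1, e2⟩ := two_zero (b := -sP (k + 4) (k + 4 + 1)) n1 (by linarith) hγ hγ'
      (by linarith)
    subst e1 e2
    have h2 := hS (k + 5)
    have n3 := sP_neg ((by decide : ∀ k : Fin 8, 5 ≤ (k + 5 - k).val) k)
    have n4 := sP_pos ((by decide : ∀ k : Fin 8, 1 ≤ (k + 5 - (k + 4)).val ∧
      (k + 5 - (k + 4)).val ≤ 3) k)
    obtain ⟨e3, e4⟩ := two_zero (a := -sP (k + 5) k) (by linarith) n4 hβ hβ' (by linarith)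
    subst e3 e4
    exact ⟨by linarith, rfl, rfl, rfl, rfl⟩
  · right; right; right
    have h1 := hS k
    rw [sP_zero ((by decide : ∀ k : Fin 8, (k - k).val = 0 ∨ (k - k).val = 4) k)] at h1
    have n1 := sP_neg ((by decide : ∀ k : Fin 8, 5 ≤ (k - (k + 1)).val) k)
    have n2 := sP_pos ((by decide : ∀ k : Fin 8, 1 ≤ (k - (k + 5)).val ∧
      (k - (k + 5)).val ≤ 3) k)
    have n3 := sP_pos ((by decide : ∀ k : Fin 8, 1 ≤ (k - (k + 5 + 1)).val ∧
      (k - (k + 5 + 1)).val ≤ 3) k)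
    obtain ⟨e1, e2, e3⟩ := three_zero (a := -sP k (k + 1)) (by linarith) n2 n3 hγ hβ' hγ'
      (by linarith)
    subst e1 e2 e3
    have h2 := hS (k + 1)
    have n4 := sP_pos ((by decide : ∀ k : Fin 8, 1 ≤ (k + 1 - k).val ∧ (k + 1 - k).val ≤ 3) k)
    have e4 : β = 0 := mul_left_cancel₀ n4.ne' (by linarith)
    subst e4
    exact ⟨by linarith, rfl, rfl, rfl, rfl⟩
  · right; right; right
    have h1 := hS k
    rw [sP_zero ((by decide : ∀ k : Fin 8, (k - k).val = 0 ∨ (k - k).val = 4) k)] at h1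
    have n1 := sP_neg ((by decide : ∀ k : Fin 8, 5 ≤ (k - (k + 1)).val) k)
    have n2 := sP_pos ((by decide : ∀ k : Fin 8, 1 ≤ (k - (k + 6)).val ∧
      (k - (k + 6)).val ≤ 3) k)
    have n3 := sP_pos ((by decide : ∀ k : Fin 8, 1 ≤ (k - (k + 6 + 1)).val ∧
      (k - (k + 6 + 1)).val ≤ 3) k)
    obtain ⟨e1, e2, e3⟩ := three_zero (a := -sP k (k + 1)) (by linarith) n2 n3 hγ hβ' hγ'
      (by linarith)
    subst e1 e2 e3
    have h2 := hS (k + 1)
    have n4 := sP_pos ((by decide : ∀ k : Fin 8, 1 ≤ (k + 1 - k).val ∧ (k + 1 - k).val ≤ 3) k)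
    have e4 : β = 0 := mul_left_cancel₀ n4.ne' (by linarith)
    subst e4
    exact ⟨by linarith, rfl, rfl, rfl, rfl⟩
  · right; right; left
    have h1 := hS k
    have h2 := hS (k + 7)
    rw [sP_zero ((by decide : ∀ k : Fin 8, (k - k).val = 0 ∨ (k - k).val = 4) k),
      sP_zero ((by decide : ∀ k : Fin 8, (k - (k + 7 + 1)).val = 0 ∨
        (k - (k + 7 + 1)).val = 4) k)] at h1
    have n1 := sP_neg ((by decide : ∀ k : Fin 8, 5 ≤ (k - (k + 1)).val) k)
    have n2 := sP_pos ((by decide : ∀ k : Fin 8, 1 ≤ (k - (k + 7)).val ∧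
      (k - (k + 7)).val ≤ 3) k)
    obtain ⟨e1, e2⟩ := two_zero (a := -sP k (k + 1)) (by linarith) n2 hγ hβ' (by linarith)
    subst e1 e2
    have e5 : k + 7 + 1 = k := (by decide : ∀ k : Fin 8, k + 7 + 1 = k) k
    rw [e5] at h2 hA
    have n3 := sP_neg ((by decide : ∀ k : Fin 8, 5 ≤ (k + 7 - k).val) k)
    have e3 : β = γ' := mul_left_cancel₀ n3.ne (by linarith)
    subst e3
    exact ⟨e5.symm, by linarith, rfl, rfl, rfl⟩


/-! ### points of the octagon -/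

theorem pt0_oct (k : Fin 8) {d : ℝ × ℝ} (hd : d ∈ Tset) : pt0 k d ∈ Oct ∧
    ∀ b, l b (pt0 k d) = 0 → d.1 + d.2 = 1 ∧ k = b := by
  obtain ⟨t, ht, e1, e2, e3⟩ := f_pt0 k hd
  obtain ⟨h1, h2, h3, h4⟩ := Tset_pos hd
  refine ⟨fun b => ?_, fun b hb => ?_⟩
  · unfold l
    rw [e1, e2, e3, Lf_smul]
    exact mul_nonneg ht.le (Lf_M_nonneg b k h1 h2 h3).1
  · unfold l at hb
    rw [e1, e2, e3, Lf_smul] at hb
    have h5 := (Lf_M_nonneg b k h1 h2 h3).2 ((mul_eq_zero.1 hb).resolve_left ht.ne') h4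
    exact ⟨by linarith [h5.1], h5.2⟩

/-- the triangle `k` is cut out by three functions -/
theorem mem_tri (k : Fin 8) (z : ℍ) (h1 : 0 ≤ l k z) (h2 : 0 ≤ s (k + 1) z) (h3 : s k z ≤ 0) :
    ∃ d ∈ Tset, pt0 k d = z := by
  obtain ⟨m1, m2, m3⟩ := M_coord k (fA z) (fB z) (fC z)
  set α := Lf k (fA z) (fB z) (fC z) with hα
  set β := Sf (k + 1) (fA z) (fB z) (fC z) with hβ
  set γ := -Sf k (fA z) (fB z) (fC z) with hγ
  have hα0 : 0 ≤ α := h1
  have hβ0 : 0 ≤ β := h2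
  have hγ0 : 0 ≤ γ := by
    rw [hγ]
    have : Sf k (fA z) (fB z) (fC z) ≤ 0 := h3
    linarith
  have hD := (Dk_ge k).1
  have hdet : 0 < MA k α β γ * MC k α β γ - MB k β γ ^ 2 := by
    rw [m1, m2, m3]
    have := det_eq z
    have e : Dk k * fA z * (Dk k * fC z) - (Dk k * fB z) ^ 2 = Dk k ^ 2 := by
      linear_combination Dk k ^ 2 * this
    rw [e]
    positivity
  rw [det_M] at hdet
  set σ := α + β + γ with hσ
  have hσ0 : 0 < σ := by
    have : 0 ≤ σ := by positivity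
    rcases this.lt_or_eq with h | h
    · exact h
    · exfalso
      have ea : α = 0 := by linarith
      have eb : β = 0 := by linarith
      have ec : γ = 0 := by linarith
      rw [ea, eb, ec] at hdet
      simp at hdet
  refine ⟨(β / σ, γ / σ), ⟨by positivity, by positivity, ?_, ?_, ?_⟩, ?_⟩
  · simp only
    rw [← add_div, div_le_one hσ0]
    linarith
  · simp only
    intro h
    rw [div_eq_one_iff_eq hσ0.ne'] at h
    have ea : α = 0 := by linarith
    have ec : γ = 0 := by linarith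
    rw [ea, ec] at hdet
    simp at hdet
  · simp only
    intro h
    rw [div_eq_one_iff_eq hσ0.ne'] at h
    have ea : α = 0 := by linarith
    have eb : β = 0 := by linarith
    rw [ea, eb] at hdet
    simp at hdet
  · have hd : ((β / σ, γ / σ) : ℝ × ℝ) ∈ Tset := by
      refine ⟨by positivity, by positivity, ?_, ?_, ?_⟩
      · simp only
        rw [← add_div, div_le_one hσ0]
        linarith
      · simp only
        intro h
        rw [div_eq_one_iff_eq hσ0.ne'] at h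
        have ea : α = 0 := by linarith
        have ec : γ = 0 := by linarith
        rw [ea, ec] at hdet
        simp at hdet
      · simp only
        intro h
        rw [div_eq_one_iff_eq hσ0.ne'] at h
        have ea : α = 0 := by linarith
        have eb : β = 0 := by linarith
        rw [ea, eb] at hdet
        simp at hdet
    have e0 : 1 - β / σ - γ / σ = σ⁻¹ * α := by
      field_simp
      rw [hσ]; ring
    have e1 : β / σ = σ⁻¹ * β := by ring
    have e2 : γ / σ = σ⁻¹ * γ := by ring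
    obtain ⟨n1, n2, n3⟩ := M_smul k σ⁻¹ α β γ
    apply eq_pt0 k hd z (σ / Dk k)
    · simp only
      rw [e0, e1, e2, n1, m1]
      field_simp
    · simp only
      rw [e1, e2, n2, m2]
      field_simp
    · simp only
      rw [e0, e1, e2, n3, m3]
      field_simp

theorem oct_tri (z : ℍ) (hz : z ∈ Oct) : ∃ k, ∃ d ∈ Tset, pt0 k d = z := by
  by_contra hcon
  push Not at hcon
  have h1 : ∀ k, s k z ≤ 0 → s (k + 1) z < 0 := by
    intro k hk
    by_contra h
    obtain ⟨d, hd, h2⟩ := mem_tri k z (hz k) (not_lt.1 h) hk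
    exact hcon k d hd h2
  have h4 : ∀ k, s (k + 4) z = -s k z := fun k => Sf_add4 k _ _ _
  have h5 : ∀ k, s k z ≤ 0 → False := by
    intro k hk
    have a1 := h1 k hk
    have a2 := h1 _ a1.le
    have a3 := h1 _ a2.le
    have a4 := h1 _ a3.le
    have e : k + 1 + 1 + 1 + 1 = k + 4 := (by decide : ∀ k : Fin 8, k + 1 + 1 + 1 + 1 = k + 4) k
    rw [e, h4] at a4
    linarith
  rcases le_total (s 0 z) 0 with h | h
  · exact h5 0 h
  · exact h5 (0 + 4) (by rw [h4]; linarith)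

theorem side0 (k : Fin 8) {b : ℝ} (h0 : 0 < b) (h1 : b < 1) :
    pt0 k (b, 1 - b) = Tl k • pt0 (k + 4) (1 - b, b) := by
  have hd : ((b, 1 - b) : ℝ × ℝ) ∈ Tset :=
    ⟨h0.le, by simp only; linarith, by simp only; linarith, by simp only; linarith,
      by simp only; linarith⟩
  have hd' : ((1 - b, b) : ℝ × ℝ) ∈ Tset :=
    ⟨by simp only; linarith, h0.le, by simp only; linarith, by simp only; linarith,
      by simp only; linarith⟩
  obtain ⟨t, ht, e1, e2, e3⟩ := f_pt0 (k + 4) hd'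
  rw [smul_def, xrep_Tl]
  obtain ⟨a1, a2, a3⟩ := act_eq (tmat k) (pt0 (k + 4) (1 - b, b))
  rw [e1, e2, e3] at a1 a2 a3
  simp only at a1 a2 a3
  apply eq_pt0 k hd _ t
  · rw [a1]
    unfold MA MB MC
    fin_cases k <;> simp [tmat, vp, vq] <;> ring
  · rw [a2]
    unfold MA MB MC
    fin_cases k <;> simp [tmat, vp, vq] <;> ring
  · rw [a3]
    unfold MA MB MC
    fin_cases k <;> simp [tmat, vp, vq] <;> ring

/-- injectivity within the octagon -/
theorem inj0 (k : Fin 8) (d : ℝ × ℝ) (k' : Fin 8) (d' : ℝ × ℝ) (hd : d ∈ Tset) (hd' : d' ∈ Tset)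
    (h : pt0 k d = pt0 k' d') : (k = k' ∧ d = d') ∨ (d = (0, 0) ∧ d' = (0, 0)) ∨
      (k' = k + 1 ∧ d.1 = 0 ∧ d' = (d.2, 0)) ∨ (k = k' + 1 ∧ d'.1 = 0 ∧ d = (d'.2, 0)) := by
  obtain ⟨t, ht, e1, e2, e3⟩ := f_pt0 k hd
  obtain ⟨t', ht', e1', e2', e3'⟩ := f_pt0 k' hd'
  rw [h] at e1 e2 e3
  rw [e1] at e1'
  rw [e2] at e2'
  rw [e3] at e3'
  obtain ⟨h1, h2, h3, h4⟩ := Tset_pos hd
  obtain ⟨h1', h2', h3', h4'⟩ := Tset_pos hd'
  obtain ⟨m1, m2, m3⟩ := M_smul k t (1 - d.1 - d.2) d.1 d.2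
  obtain ⟨m1', m2', m3'⟩ := M_smul k' t' (1 - d'.1 - d'.2) d'.1 d'.2
  rw [← m1, ← m1'] at e1'
  rw [← m2, ← m2'] at e2'
  rw [← m3, ← m3'] at e3'
  have key := sector k k' (mul_nonneg ht.le h2) (mul_nonneg ht.le h3) (mul_nonneg ht'.le h2')
    (mul_nonneg ht'.le h3') e1' e2' e3'
  obtain ⟨x, y⟩ := d
  obtain ⟨x', y'⟩ := d'
  simp only at key ⊢
  rcases key with ⟨a1, a2, a3, a4⟩ | ⟨a1, a2, a3, a4, a5⟩ | ⟨a1, a2, a3, a4, a5⟩ |
    ⟨a2, a3, a4, a5, a6⟩
  · left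
    have et : t = t' := by linear_combination a2 + a3 + a4
    subst et
    refine ⟨a1, ?_⟩
    rw [mul_left_cancel₀ ht.ne' a3, mul_left_cancel₀ ht.ne' a4]
  · right; right; left
    have et : t = t' := by linear_combination a2 + a3 - a4 + a5
    subst et
    have b1 : x = 0 := (mul_eq_zero.1 a3).resolve_left ht.ne'
    have b2 : y' = 0 := (mul_eq_zero.1 a4).resolve_left ht.ne'
    have b3 : y = x' := mul_left_cancel₀ ht.ne' a5
    subst b1 b2 b3
    exact ⟨a1, rfl, rfl⟩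
  · right; right; right
    have et : t = t' := by linear_combination a2 + a3 - a4 + a5
    subst et
    have b1 : y = 0 := (mul_eq_zero.1 a3).resolve_left ht.ne'
    have b2 : x' = 0 := (mul_eq_zero.1 a4).resolve_left ht.ne'
    have b3 : x = y' := mul_left_cancel₀ ht.ne' a5
    subst b1 b2 b3
    exact ⟨a1, rfl, rfl⟩
  · right; left
    have b1 : x = 0 := (mul_eq_zero.1 a3).resolve_left ht.ne'
    have b2 : y = 0 := (mul_eq_zero.1 a4).resolve_left ht.ne'
    have b3 : x' = 0 := (mul_eq_zero.1 a5).resolve_left ht'.ne'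
    have b4 : y' = 0 := (mul_eq_zero.1 a6).resolve_left ht'.ne'
    subst b1 b2 b3 b4
    exact ⟨rfl, rfl⟩

theorem inj_pt (h : G) (k : Fin 8) (d : ℝ × ℝ) (h' : G) (k' : Fin 8) (d' : ℝ × ℝ)
    (hd : d ∈ Tset) (hd' : d' ∈ Tset) (e : pt h k d = pt h' k' d') :
    (h = h' ∧ k = k' ∧ d = d') ∨
    (h = h' ∧ d = (0, 0) ∧ d' = (0, 0)) ∨
    (h = h' ∧ k' = k + 1 ∧ d.1 = 0 ∧ d' = (d.2, 0)) ∨
    (h = h' ∧ k = k' + 1 ∧ d'.1 = 0 ∧ d = (d'.2, 0)) ∨
    (h' = h * Tl k ∧ k' = k + 4 ∧ d.1 + d.2 = 1 ∧ d' = (d.2, d.1)) := by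
  unfold pt at e
  have e1 : pt0 k d = (h⁻¹ * h') • pt0 k' d' := by
    rw [mul_smul, ← e, inv_smul_smul]
  by_cases hg : h⁻¹ * h' = 1
  · have hh : h = h' := by
      rw [inv_mul_eq_one] at hg; exact hg
    rw [hg, one_smul] at e1
    rcases inj0 k d k' d' hd hd' e1 with a | a | a | a
    · exact Or.inl ⟨hh, a.1, a.2⟩
    · exact Or.inr (Or.inl ⟨hh, a.1, a.2⟩)
    · exact Or.inr (Or.inr (Or.inl ⟨hh, a.1, a.2.1, a.2.2⟩))
    · exact Or.inr (Or.inr (Or.inr (Or.inl ⟨hh, a.1, a.2.1, a.2.2⟩)))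
  · right; right; right; right
    obtain ⟨b, hb1, hb2⟩ := oct_inter _ hg _ (pt0_oct k' hd').1
    rw [← e1] at hb1 hb2
    have h0 := (pt0_oct k hd).1 b
    have h1 : l b (pt0 k d) = 0 := le_antisymm hb1 h0
    have h2 : h⁻¹ * h' = Tl b := by
      by_contra hne
      have := hb2 hne
      linarith
    obtain ⟨h3, h4⟩ := (pt0_oct k hd).2 b h1
    subst h4
    obtain ⟨x, y⟩ := d
    simp only at h3 ⊢
    obtain ⟨d1, d2, d3, d4, d5⟩ := hd
    simp only at d1 d2 d3 d4 d5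
    have hy : y = 1 - x := by linarith
    subst hy
    have hx0 : 0 < x := by
      rcases d1.lt_or_eq with h | h
      · exact h
      · exfalso; apply d5; rw [← h]; ring
    have hx1 : x < 1 := by
      rcases d2.lt_or_eq with h | h
      · linarith
      · exfalso; apply d4; linarith
    rw [h2, side0 k hx0 hx1] at e1
    have e2 : pt0 (k + 4) (1 - x, x) = pt0 k' d' := by
      have := congrArg (fun z => (Tl k)⁻¹ • z) e1
      simpa only [inv_smul_smul] using this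
    have hd1 : ((1 - x, x) : ℝ × ℝ) ∈ Tset :=
      ⟨by simp only; linarith, hx0.le, by simp only; linarith, by simp only; linarith,
        by simp only; linarith⟩
    have hh : h' = h * Tl k := by rw [← h2]; group
    rcases inj0 (k + 4) (1 - x, x) k' d' hd1 hd' e2 with a | a | a | a
    · exact ⟨hh, a.1.symm, by ring, a.2.symm⟩
    · exfalso
      have := congrArg Prod.snd a.1
      simp only at this
      linarith
    · exfalso
      have := a.2.1
      simp only at this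
      linarith
    · exfalso
      have := congrArg Prod.snd a.2.2
      simp only at this
      linarith


/-! ### topology -/

theorem continuous_fA : Continuous fA := by
  unfold fA
  exact ((UpperHalfPlane.continuous_re.pow 2).add (UpperHalfPlane.continuous_im.pow 2)).div
    UpperHalfPlane.continuous_im fun z => z.im_ne_zero

theorem continuous_fB : Continuous fB := by
  unfold fB
  exact UpperHalfPlane.continuous_re.div UpperHalfPlane.continuous_im fun z => z.im_ne_zero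

theorem continuous_fC : Continuous fC := by
  unfold fC
  exact continuous_const.div UpperHalfPlane.continuous_im fun z => z.im_ne_zero

theorem continuous_l (b : Fin 8) : Continuous (l b) := by
  have e : l b = fun z => (ltab b 0 : ℝ) * fA z + (ltab b 1 : ℝ) * fB z +
      (ltab b 2 : ℝ) * fC z := by
    funext z; unfold l; rw [Lf_eq]
  rw [e]
  exact ((continuous_const.mul continuous_fA).add (continuous_const.mul continuous_fB)).add
    (continuous_const.mul continuous_fC)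

theorem continuous_s (b : Fin 8) : Continuous (s b) := by
  have e : s b = fun z => (stab b 0 : ℝ) * fA z + (stab b 1 : ℝ) * fB z +
      (stab b 2 : ℝ) * fC z := by
    funext z; unfold s; rw [Sf_eq]
  rw [e]
  exact ((continuous_const.mul continuous_fA).add (continuous_const.mul continuous_fB)).add
    (continuous_const.mul continuous_fC)

theorem continuous_act (g : G) : Continuous (fun z : ℍ => g • z) := by
  have e : (fun z : ℍ => g • z) = fun z : ℍ =>
      (Matrix.SpecialLinearGroup.toGL ((Matrix.SpecialLinearGroup.map (Int.castRingHom ℝ))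
        (xrep g)) : GL (Fin 2) ℝ) • z := rfl
  rw [e]
  exact continuous_const_smul _

def actHomeo (g : G) : ℍ ≃ₜ ℍ where
  toFun z := g • z
  invFun z := g⁻¹ • z
  left_inv z := inv_smul_smul g z
  right_inv z := smul_inv_smul g z
  continuous_toFun := continuous_act g
  continuous_invFun := continuous_act g⁻¹

theorem continuous_pt0 (k : Fin 8) : Continuous (fun d : Tset => pt0 k d) := by
  rw [UpperHalfPlane.isEmbedding_coe.continuous_iff]
  have e : ((↑) : ℍ → ℂ) ∘ (fun d : Tset => pt0 k d) = fun d : Tset =>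
      (⟨MB k d.1.1 d.1.2 / MC k (1 - d.1.1 - d.1.2) d.1.1 d.1.2,
        √(MA k (1 - d.1.1 - d.1.2) d.1.1 d.1.2 * MC k (1 - d.1.1 - d.1.2) d.1.1 d.1.2 -
          MB k d.1.1 d.1.2 ^ 2) / MC k (1 - d.1.1 - d.1.2) d.1.1 d.1.2⟩ : ℂ) := by
    funext d
    obtain ⟨h1, h2, h3, h4⟩ := Tset_pos d.2
    have h5 := pos_M k h1 h2 h3 h4
    apply Complex.ext
    · exact Zf_re h5
    · exact Zf_im h5
  rw [e]
  have c1 : Continuous fun d : Tset => d.1.1 := continuous_fst.comp continuous_subtype_val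
  have c2 : Continuous fun d : Tset => d.1.2 := continuous_snd.comp continuous_subtype_val
  have cB : Continuous fun d : Tset => MB k d.1.1 d.1.2 := by
    unfold MB
    fun_prop
  have cA : Continuous fun d : Tset => MA k (1 - d.1.1 - d.1.2) d.1.1 d.1.2 := by
    unfold MA
    fun_prop
  have cC : Continuous fun d : Tset => MC k (1 - d.1.1 - d.1.2) d.1.1 d.1.2 := by
    unfold MC
    fun_prop
  have hC : ∀ d : Tset, MC k (1 - d.1.1 - d.1.2) d.1.1 d.1.2 ≠ 0 := by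
    intro d
    obtain ⟨h1, h2, h3, h4⟩ := Tset_pos d.2
    exact (pos_M k h1 h2 h3 h4).1.ne'
  have r1 := cB.div cC hC
  have r2 := (Real.continuous_sqrt.comp ((cA.mul cC).sub (cB.pow 2))).div cC hC
  have r3 := Complex.equivRealProdCLM.symm.continuous.comp (r1.prodMk r2)
  exact r3

theorem emb0 (k : Fin 8) : Topology.IsClosedEmbedding (fun d : Tset => pt0 k d) := by
  have hD := Dk_ge k
  set R : ℍ → ℝ × ℝ := fun z =>
    (s (k + 1) z / max (l k z + s (k + 1) z - s k z) (1 / 2),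
      -s k z / max (l k z + s (k + 1) z - s k z) (1 / 2)) with hR
  have hmax : ∀ z, max (l k z + s (k + 1) z - s k z) (1 / 2) ≠ 0 := by
    intro z h
    have : (1 / 2 : ℝ) ≤ max (l k z + s (k + 1) z - s k z) (1 / 2) := le_max_right _ _
    rw [h] at this
    norm_num at this
  have cmax : Continuous fun z => max (l k z + s (k + 1) z - s k z) (1 / 2) :=
    (((continuous_l k).add (continuous_s (k + 1))).sub (continuous_s k)).max continuous_const
  have hRc : Continuous R :=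
    ((continuous_s (k + 1)).div cmax hmax).prodMk ((continuous_s k).neg.div cmax hmax)
  have hRpt : ∀ d : Tset, R (pt0 k d) = d := by
    intro d
    obtain ⟨h1, h2, h3, h4⟩ := Tset_pos d.2
    obtain ⟨t, ht, e1, e2, e3⟩ := f_pt0 k d.2
    have hl : l k (pt0 k d) = Dk k * (t * (1 - d.1.1 - d.1.2)) := by
      unfold l
      rw [e1, e2, e3, Lf_smul, Lf_M]; ring
    have hs1 : s (k + 1) (pt0 k d) = Dk k * (t * d.1.1) := by
      unfold s
      rw [e1, e2, e3, Sf_smul, Sf_M']; ring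
    have hs0 : s k (pt0 k d) = -(Dk k * (t * d.1.2)) := by
      unfold s
      rw [e1, e2, e3, Sf_smul, Sf_M]; ring
    have hsum : l k (pt0 k d) + s (k + 1) (pt0 k d) - s k (pt0 k d) = Dk k * t := by
      rw [hl, hs1, hs0]; ring
    have hdet := det_eq (pt0 k d)
    rw [e1, e2, e3] at hdet
    have hdet' : t ^ 2 * (MA k (1 - d.1.1 - d.1.2) d.1.1 d.1.2 *
        MC k (1 - d.1.1 - d.1.2) d.1.1 d.1.2 - MB k d.1.1 d.1.2 ^ 2) = 1 := by
      linear_combination hdet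
    rw [det_M] at hdet'
    have hb : (1 - d.1.1 - d.1.2) ^ 2 + (1 - d.1.1 - d.1.2) * d.1.1 * (vp k ^ 2 + vq k ^ 2) +
        (1 - d.1.1 - d.1.2) * d.1.2 * (vp (k + 1) ^ 2 + vq (k + 1) ^ 2) + d.1.1 * d.1.2 ≤ 5 := by
      have v1 := (vv_ge k).2
      have v2 := (vv_ge (k + 1)).2
      have p1 : (1 - d.1.1 - d.1.2) * d.1.1 * (vp k ^ 2 + vq k ^ 2) ≤
          (1 - d.1.1 - d.1.2) * d.1.1 * 5 :=
        mul_le_mul_of_nonneg_left v1 (mul_nonneg h1 h2)
      have p2 : (1 - d.1.1 - d.1.2) * d.1.2 * (vp (k + 1) ^ 2 + vq (k + 1) ^ 2) ≤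
          (1 - d.1.1 - d.1.2) * d.1.2 * 5 :=
        mul_le_mul_of_nonneg_left v2 (mul_nonneg h1 h3)
      nlinarith [mul_nonneg h1 h2, mul_nonneg h1 h3, mul_nonneg h2 h3, sq_nonneg (d.1.1),
        sq_nonneg (d.1.2), sq_nonneg (1 - d.1.1 - d.1.2)]
    have ht5 : 1 ≤ 5 * t ^ 2 := by nlinarith [sq_nonneg t]
    have ht2 : 1 / 4 ≤ t := by
      by_contra h
      have h' := not_le.1 h
      nlinarith
    have hσ : 1 / 2 ≤ Dk k * t := by nlinarith
    simp only [hR]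
    rw [hsum, max_eq_left hσ, hs1, hs0]
    have hDt : Dk k * t ≠ 0 := by positivity
    ext
    · simp only
      have : Dk k * (t * d.1.1) = d.1.1 * (Dk k * t) := by ring
      rw [this, mul_div_cancel_right₀ _ hDt]
    · simp only
      have : - -(Dk k * (t * d.1.2)) = d.1.2 * (Dk k * t) := by ring
      rw [this, mul_div_cancel_right₀ _ hDt]
  refine ⟨?_, ?_⟩
  · apply Topology.IsEmbedding.of_comp (continuous_pt0 k) hRc
    have : R ∘ (fun d : Tset => pt0 k d) = Subtype.val := by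
      funext d
      exact hRpt d
    rw [this]
    exact Topology.IsEmbedding.subtypeVal
  · have e : Set.range (fun d : Tset => pt0 k d) =
        {z | 0 ≤ l k z} ∩ {z | 0 ≤ s (k + 1) z} ∩ {z | s k z ≤ 0} := by
      ext z
      constructor
      · rintro ⟨d, rfl⟩
        obtain ⟨h1, h2, h3, h4⟩ := Tset_pos d.2
        obtain ⟨t, ht, e1, e2, e3⟩ := f_pt0 k d.2
        refine ⟨⟨?_, ?_⟩, ?_⟩
        · change 0 ≤ Lf k _ _ _
          rw [e1, e2, e3, Lf_smul, Lf_M]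
          have := Dk_ge k
          exact mul_nonneg ht.le (mul_nonneg (by linarith) h1)
        · change 0 ≤ Sf (k + 1) _ _ _
          rw [e1, e2, e3, Sf_smul, Sf_M']
          exact mul_nonneg ht.le (mul_nonneg (by linarith) h2)
        · change Sf k _ _ _ ≤ 0
          rw [e1, e2, e3, Sf_smul, Sf_M]
          have := mul_nonneg ht.le (mul_nonneg (by linarith : 0 ≤ Dk k) h3)
          linarith
      · rintro ⟨⟨h1, h2⟩, h3⟩
        obtain ⟨d, hd, h⟩ := mem_tri k z h1 h2 h3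
        exact ⟨⟨d, hd⟩, h⟩
    rw [e]
    exact ((isClosed_le continuous_const (continuous_l k)).inter
      (isClosed_le continuous_const (continuous_s (k + 1)))).inter
      (isClosed_le (continuous_s k) continuous_const)

/-- a point of the octagon has a neighbourhood which meets at most two octagons -/
theorem nbhd (y : ℍ) (hy : y ∈ Oct) : ∃ V : Set ℍ, IsOpen V ∧ y ∈ V ∧ ∃ b : Fin 8,
    ∀ h : G, ∀ z ∈ Oct, h • z ∈ V → h = 1 ∨ h = Tl b := by
  by_cases hcase : ∃ b, l b y = 0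
  · obtain ⟨b, hb⟩ := hcase
    set V : Set ℍ := (⋂ b' ∈ {b' : Fin 8 | b' ≠ b}, {u | 0 < l b' u}) ∩
      (⋂ b' ∈ {b' : Fin 8 | b' ≠ b + 4}, {u | 0 < l b' ((Tl b)⁻¹ • u)}) with hV
    refine ⟨V, ?_, ?_, b, ?_⟩
    · apply IsOpen.inter
      · exact (Set.toFinite _).isOpen_biInter fun b' _ =>
          isOpen_lt continuous_const (continuous_l b')
      · exact (Set.toFinite _).isOpen_biInter fun b' _ =>
          isOpen_lt continuous_const ((continuous_l b').comp (continuous_act _))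
    · refine ⟨?_, ?_⟩
      · rw [Set.mem_iInter₂]
        intro b' hb'
        exact sep y b b' (fun h => hb' h.symm) hb.le
      · rw [Set.mem_iInter₂]
        intro b' hb'
        apply sep _ (b + 4) b' (fun h => hb' h.symm)
        have h1 := l_T b ((Tl b)⁻¹ • y)
        rw [smul_inv_smul, hb] at h1
        linarith
    · intro h z hz hu
      by_contra hne
      rw [not_or] at hne
      obtain ⟨hu1, hu2⟩ := hu
      rw [Set.mem_iInter₂] at hu1 hu2
      obtain ⟨b1, h1, h2⟩ := oct_inter h hne.1 z hz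
      have e1 : b1 = b := by
        by_contra hb1
        have : 0 < l b1 (h • z) := hu1 b1 hb1
        linarith
      subst e1
      have h3 := h2 hne.2
      have hg : (Tl b1)⁻¹ * h ≠ 1 := by
        intro h4
        rw [inv_mul_eq_one] at h4
        exact hne.2 h4.symm
      obtain ⟨b2, h4, _⟩ := oct_inter _ hg z hz
      rw [mul_smul] at h4
      have e2 : b2 = b1 + 4 := by
        by_contra hb2
        have : 0 < l b2 ((Tl b1)⁻¹ • h • z) := hu2 b2 hb2
        linarith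
      subst e2
      have h5 := l_T b1 ((Tl b1)⁻¹ • h • z)
      rw [smul_inv_smul] at h5
      linarith
  · push Not at hcase
    refine ⟨⋂ b, {u | 0 < l b u}, ?_, ?_, 0, ?_⟩
    · exact isOpen_iInter_of_finite fun b => isOpen_lt continuous_const (continuous_l b)
    · rw [Set.mem_iInter]
      intro b
      exact lt_of_le_of_ne (hy b) (hcase b).symm
    · intro h z hz hu
      left
      by_contra hne
      rw [Set.mem_iInter] at hu
      obtain ⟨b1, h1, _⟩ := oct_inter h hne z hz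
      have : 0 < l b1 (h • z) := hu b1
      linarith

theorem lf_pt : LocallyFinite (fun x : G × Fin 8 => pt x.1 x.2 '' Tset) := by
  intro z
  obtain ⟨g, hg⟩ := cover z
  obtain ⟨V, hV1, hV2, b, hb⟩ := nbhd (g • z) hg
  refine ⟨(fun u => g • u) ⁻¹' V, (hV1.preimage (continuous_act g)).mem_nhds hV2, ?_⟩
  refine Set.Finite.subset ((Set.finite_range (fun k : Fin 8 => (g⁻¹, k))).union
    (Set.finite_range (fun k : Fin 8 => (g⁻¹ * Tl b, k)))) ?_
  rintro ⟨h, k⟩ ⟨u, ⟨d, hd, hu1⟩, hu2⟩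
  change g • u ∈ V at hu2
  rw [← hu1] at hu2
  change g • h • pt0 k d ∈ V at hu2
  rw [← mul_smul] at hu2
  rcases hb (g * h) _ (pt0_oct k hd).1 hu2 with e | e
  · left
    refine ⟨k, ?_⟩
    rw [mul_eq_one_iff_inv_eq] at e
    rw [e]
  · right
    refine ⟨k, ?_⟩
    rw [← e]
    simp

end TreeX

open TreeX in
theorem stmt_Tree : Stmt_Tree := by
  refine ⟨pt, ?_, ?_, ?_, ?_, ?_, inj_pt, ?_, lf_pt⟩
  · intro g h k d
    unfold pt
    rw [mul_smul]
  · intro u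
    obtain ⟨g, hg⟩ := cover u
    obtain ⟨k, d, hd, h⟩ := oct_tri _ hg
    refine ⟨g⁻¹, k, d, hd, ?_⟩
    unfold pt
    rw [h, inv_smul_smul]
  · intro h k k'
    unfold pt pt0
    congr 2 <;> simp [MA, MB, MC]
  · intro h k b _ _
    unfold pt pt0
    congr 2 <;> simp [MA, MB, MC]
  · intro h k b h0 h1
    unfold pt
    rw [side0 k h0 h1, mul_smul]
  · intro h k
    exact (actHomeo h).isClosedEmbedding.comp (emb0 k)

end Pool.Agent.CircleShift
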