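import Pool.Agent.Work.MP_0fc146_gt_h31.Interface

/-!
# Stmt_Tree: the upper half plane as a tree of octagons
-/

noncomputable section

open scoped Topology UpperHalfPlane MatrixGroups
open UpperHalfPlane

namespace Pool.Agent.CircleShift

namespace TreeX

/-! ### linear forms in the coordinates `(A, B, C)` -/

/-- the sides of the octagon -/
def Lf (b : Fin 8) (A B C : ℝ) : ℝ :=
  ![B + 2 * C, A + 3 * B + 2 * C, 2 * A + 3 * B + C, 2 * A + B, 2 * A - B, 2 * A - 3 * B + C,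
    A - 3 * B + 2 * C, -B + 2 * C] b

/-- the spokes -/
def Sf (k : Fin 8) (A B C : ℝ) : ℝ :=
  ![B, 2 * A + 3 * B - 2 * C, A - C, 2 * A - 3 * B - 2 * C, -B, -2 * A - 3 * B + 2 * C, -A + C,
    -2 * A + 3 * B + 2 * C] k

/-- the vertices -/
def vp (k : Fin 8) : ℝ := ![1, -2, -1, -1, 0, 1, 1, 2] k
def vq (k : Fin 8) : ℝ := ![0, 1, 1, 2, 1, 2, 1, 1] k

def fA (z : ℍ) : ℝ := (z.re ^ 2 + z.im ^ 2) / z.im
def fB (z : ℍ) : ℝ := z.re / z.im
def fC (z : ℍ) : ℝ := 1 / z.im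

theorem fN_pos (z : ℍ) (p q : ℝ) (h : p ≠ 0 ∨ q ≠ 0) :
    0 < q ^ 2 * fA z - 2 * p * q * fB z + p ^ 2 * fC z := by
  have him := z.im_pos
  have e : q ^ 2 * fA z - 2 * p * q * fB z + p ^ 2 * fC z =
      ((q * z.re - p) ^ 2 + q ^ 2 * z.im ^ 2) / z.im := by
    unfold fA fB fC
    field_simp
    ring
  rw [e]
  apply div_pos _ him
  by_cases hq : q = 0
  · subst hq
    have hp : p ≠ 0 := by
      rcases h with h | h
      · exact h
      · exact absurd rfl h
    have : 0 < p ^ 2 := by positivity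
    nlinarith
  · have : 0 < q ^ 2 * z.im ^ 2 := by positivity
    nlinarith [sq_nonneg (q * z.re - p)]

theorem det_eq (z : ℍ) : fA z * fC z - fB z ^ 2 = 1 := by
  have him := z.im_pos
  unfold fA fB fC
  field_simp
  ring

theorem fC_pos (z : ℍ) : 0 < fC z := by
  have him := z.im_pos
  unfold fC; positivity

/-- the side functions on the upper half plane -/
def l (b : Fin 8) (z : ℍ) : ℝ := Lf b (fA z) (fB z) (fC z)

/-- closed half planes beyond different sides are disjoint -/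
theorem sep (z : ℍ) (b b' : Fin 8) (h : b ≠ b') (hb : l b z ≤ 0) : 0 < l b' z := by
  have n0 := fN_pos z 1 0 (by norm_num)
  have n1 := fN_pos z (-2) 1 (by norm_num)
  have n2 := fN_pos z (-1) 1 (by norm_num)
  have n3 := fN_pos z (-1) 2 (by norm_num)
  have n4 := fN_pos z 0 1 (by norm_num)
  have n5 := fN_pos z 1 2 (by norm_num)
  have n6 := fN_pos z 1 1 (by norm_num)
  have n7 := fN_pos z 2 1 (by norm_num)
  unfold l at hb ⊢
  fin_cases b <;> fin_cases b' <;> first | exact absurd rfl h | (simp [Lf] at hb ⊢; linarith)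

/-! ### the action of matrices -/

theorem act_eq (T : SL(2, ℤ)) (z : ℍ) :
    fA (T • z) = (T 0 0 : ℝ) ^ 2 * fA z + 2 * (T 0 0 : ℝ) * (T 0 1 : ℝ) * fB z +
      (T 0 1 : ℝ) ^ 2 * fC z ∧
    fB (T • z) = (T 0 0 : ℝ) * (T 1 0 : ℝ) * fA z +
      ((T 0 0 : ℝ) * (T 1 1 : ℝ) + (T 0 1 : ℝ) * (T 1 0 : ℝ)) * fB z +
      (T 0 1 : ℝ) * (T 1 1 : ℝ) * fC z ∧
    fC (T • z) = (T 1 0 : ℝ) ^ 2 * fA z + 2 * (T 1 0 : ℝ) * (T 1 1 : ℝ) * fB z +
      (T 1 1 : ℝ) ^ 2 * fC z := by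
  have him := z.im_pos
  have hdet : (T 0 0 : ℝ) * (T 1 1 : ℝ) - (T 0 1 : ℝ) * (T 1 0 : ℝ) = 1 := by
    have := T.det_coe
    rw [Matrix.det_fin_two] at this
    exact_mod_cast this
  have hd0 : ((T 1 0 : ℝ) : ℂ) * (z : ℂ) + ((T 1 1 : ℝ) : ℂ) ≠ 0 := by
    intro h
    have h1 := congrArg Complex.im h
    have h2 := congrArg Complex.re h
    simp at h1 h2
    rcases h1 with h1 | h1
    · rw [h1] at h2 hdet
      simp at h2
      rw [h2] at hdet
      simp at hdet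
    · exact him.ne' h1
  have hw : ((T • z : ℍ) : ℂ) * (((T 1 0 : ℝ) : ℂ) * (z : ℂ) + ((T 1 1 : ℝ) : ℂ)) =
      ((T 0 0 : ℝ) : ℂ) * (z : ℂ) + ((T 0 1 : ℝ) : ℂ) := by
    have h := UpperHalfPlane.coe_specialLinearGroup_apply T z
    simp only [eq_intCast] at h
    rw [h]
    exact div_mul_cancel₀ _ hd0
  set w : ℍ := T • z with hwdef
  have hwim := w.im_pos
  have h1 := congrArg Complex.re hw
  have h2 := congrArg Complex.im hw
  simp at h1 h2
  set a : ℝ := (T 0 0 : ℝ)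
  set b : ℝ := (T 0 1 : ℝ)
  set c : ℝ := (T 1 0 : ℝ)
  set d : ℝ := (T 1 1 : ℝ)
  set x := z.re
  set y := z.im
  set X := w.re
  set Y := w.im
  set N : ℝ := (c * x + d) ^ 2 + c ^ 2 * y ^ 2 with hN
  have e1 : Y * N = y := by
    rw [hN]
    linear_combination (c * x + d) * h2 - c * y * h1 + y * hdet
  have e2 : X * N = (a * x + b) * (c * x + d) + a * c * y ^ 2 := by
    rw [hN]
    linear_combination (c * x + d) * h1 + c * y * h2
  have e3 : (X ^ 2 + Y ^ 2) * N = (a * x + b) ^ 2 + a ^ 2 * y ^ 2 := by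
    rw [hN]
    have h3 : (X * (c * x + d) - Y * (c * y)) ^ 2 + (X * (c * y) + Y * (c * x + d)) ^ 2 =
        (a * x + b) ^ 2 + (a * y) ^ 2 := by rw [h1, h2]
    linear_combination h3
  have hNpos : 0 < N := by
    by_contra h
    have : Y * N ≤ 0 := mul_nonpos_of_nonneg_of_nonpos hwim.le (not_lt.1 h)
    linarith
  have eY : Y = y / N := by rw [eq_div_iff hNpos.ne']; exact e1
  have eX : X = ((a * x + b) * (c * x + d) + a * c * y ^ 2) / N := by
    rw [eq_div_iff hNpos.ne']; exact e2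
  have eXY : X ^ 2 + Y ^ 2 = ((a * x + b) ^ 2 + a ^ 2 * y ^ 2) / N := by
    rw [eq_div_iff hNpos.ne']; exact e3
  refine ⟨?_, ?_, ?_⟩
  · change (X ^ 2 + Y ^ 2) / Y = a ^ 2 * ((x ^ 2 + y ^ 2) / y) + 2 * a * b * (x / y) +
      b ^ 2 * (1 / y)
    rw [eXY, eY]
    field_simp
    ring
  · change X / Y = a * c * ((x ^ 2 + y ^ 2) / y) + (a * d + b * c) * (x / y) + b * d * (1 / y)
    rw [eX, eY]
    field_simp
    ring
  · change 1 / Y = c ^ 2 * ((x ^ 2 + y ^ 2) / y) + 2 * c * d * (x / y) + d ^ 2 * (1 / y)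
    rw [eY]
    field_simp
    rw [hN]
    ring


/-! ### the generators -/

/-- the matrices of the sides -/
def tmat : Fin 8 → SL(2, ℤ) := ![⟨!![5, -2; -2, 1], by decide +kernel⟩,
  ⟨!![5, -3; -3, 2], by decide +kernel⟩, ⟨!![2, -3; -3, 5], by decide +kernel⟩,
  ⟨!![1, -2; -2, 5], by decide +kernel⟩, ⟨!![1, 2; 2, 5], by decide +kernel⟩,
  ⟨!![2, 3; 3, 5], by decide +kernel⟩, ⟨!![5, 3; 3, 2], by decide +kernel⟩,
  ⟨!![5, 2; 2, 1], by decide +kernel⟩]

theorem xrep_Tl : ∀ b : Fin 8, xrep (Tl b) = tmat b := by decide +kernel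

theorem smul_def (g : G) (z : ℍ) : g • z = xrep g • z := rfl

theorem l_T (b : Fin 8) (z : ℍ) : l b (Tl b • z) = -l (b + 4) z := by
  rw [smul_def, xrep_Tl]
  obtain ⟨h1, h2, h3⟩ := act_eq (tmat b) z
  unfold l
  rw [h1, h2, h3]
  fin_cases b <;> simp [Lf, tmat] <;> ring

/-! ### ping-pong -/

/-- the octagon -/
def Oct : Set ℍ := {z | ∀ b, 0 ≤ l b z}

/-- the side of a letter -/
def sd (x : Fin 4 × Bool) : Fin 8 :=
  if x.2 then ⟨x.1.1, by omega⟩ else ⟨x.1.1 + 4, by omega⟩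

theorem Tl_sd : ∀ x : Fin 4 × Bool, Tl (sd x) = FreeGroup.mk [x] := by decide +kernel

theorem sd_ne : ∀ x y : Fin 4 × Bool, (x.1 = y.1 → x.2 = y.2) → sd y ≠ sd x + 4 := by
  decide +kernel

theorem pingpong (x : Fin 4 × Bool) (w : List (Fin 4 × Bool)) (h : FreeGroup.IsReduced (x :: w))
    (z : ℍ) (hz : z ∈ Oct) : l (sd x) ((FreeGroup.mk (x :: w) : G) • z) ≤ 0 ∧
      (w ≠ [] → l (sd x) ((FreeGroup.mk (x :: w) : G) • z) < 0) := by
  induction w generalizing x with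
  | nil =>
    refine ⟨?_, fun h => absurd rfl h⟩
    rw [← Tl_sd, l_T]
    have := hz (sd x + 4)
    linarith
  | cons y w ih =>
    have h1 : FreeGroup.IsReduced (y :: w) := by
      unfold FreeGroup.IsReduced at h ⊢
      exact h.tail
    have h2 : x.1 = y.1 → x.2 = y.2 := by
      unfold FreeGroup.IsReduced at h
      exact (List.isChain_cons_cons.1 h).1
    have h3 := (ih y h1).1
    have h4 : (FreeGroup.mk (x :: y :: w) : G) = Tl (sd x) * FreeGroup.mk (y :: w) := by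
      rw [Tl_sd, FreeGroup.mul_mk]; rfl
    have h5 : l (sd x) ((FreeGroup.mk (x :: y :: w) : G) • z) < 0 := by
      rw [h4, mul_smul, l_T]
      have := sep _ _ _ (sd_ne x y h2) h3
      linarith
    exact ⟨h5.le, fun _ => h5⟩

/-- different octagons meet at most along sides -/
theorem oct_inter (g : G) (hg : g ≠ 1) (z : ℍ) (hz : z ∈ Oct) :
    ∃ b, l b (g • z) ≤ 0 ∧ (g ≠ Tl b → l b (g • z) < 0) := by
  have h1 : FreeGroup.mk g.toWord = g := FreeGroup.mk_toWord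
  have h2 := FreeGroup.isReduced_toWord (x := g)
  rcases hw : g.toWord with _ | ⟨x, w⟩
  · exact absurd (FreeGroup.toWord_eq_nil_iff.1 hw) hg
  · rw [hw] at h1 h2
    obtain ⟨h3, h4⟩ := pingpong x w h2 z hz
    rw [h1] at h3 h4
    refine ⟨sd x, h3, fun h => h4 ?_⟩
    rintro rfl
    apply h
    rw [Tl_sd, h1]


/-! ### the covering by Farey triangles -/

/-- representatives of the cosets -/
def rep : Fin 18 → SL(2, ℤ) := ![
  ⟨!![1, 0; 0, 1], by decide +kernel⟩,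
  ⟨!![0, 1; -1, 1], by decide +kernel⟩,
  ⟨!![-1, 1; -1, 0], by decide +kernel⟩,
  ⟨!![1, 1; 0, 1], by decide +kernel⟩,
  ⟨!![-1, 2; -1, 1], by decide +kernel⟩,
  ⟨!![-2, 1; -1, 0], by decide +kernel⟩,
  ⟨!![1, -1; 0, 1], by decide +kernel⟩,
  ⟨!![1, 0; -1, 1], by decide +kernel⟩,
  ⟨!![0, 1; -1, 0], by decide +kernel⟩,
  ⟨!![1, -2; 0, 1], by decide +kernel⟩,
  ⟨!![2, -1; -1, 1], by decide +kernel⟩,
  ⟨!![1, 1; -1, 0], by decide +kernel⟩,
  ⟨!![1, 0; 1, 1], by decide +kernel⟩,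
  ⟨!![0, 1; -1, 2], by decide +kernel⟩,
  ⟨!![-1, 1; -2, 1], by decide +kernel⟩,
  ⟨!![0, -1; 1, 1], by decide +kernel⟩,
  ⟨!![1, -1; -1, 2], by decide +kernel⟩,
  ⟨!![1, 0; -2, 1], by decide +kernel⟩]

/-- the matrices of the sides and the identity -/
def wmat : Option (Fin 8) → SL(2, ℤ)
  | none => 1
  | some b => tmat b

theorem step : ∀ (i : Fin 18) (t : Fin 3), ∃ (w : Option (Fin 8)) (j : Fin 18),
    rep i * (![ModularGroup.S, ModularGroup.T, ModularGroup.T⁻¹] t) = wmat w * rep j ∨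
      rep i * (![ModularGroup.S, ModularGroup.T, ModularGroup.T⁻¹] t) = -(wmat w * rep j) := by
  decide +kernel

theorem rep_zero : rep 0 = 1 := by decide +kernel

/-- `g` is in one of the cosets -/
def Good (g : SL(2, ℤ)) : Prop := ∃ (h : G) (i : Fin 18), g = xrep h * rep i ∨
  g = -(xrep h * rep i)

theorem good_neg {g : SL(2, ℤ)} (h : Good g) : Good (-g) := by
  obtain ⟨h, i, h1 | h1⟩ := h
  · exact ⟨h, i, Or.inr (by rw [h1])⟩
  · exact ⟨h, i, Or.inl (by rw [h1, neg_neg])⟩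

theorem good_step {g : SL(2, ℤ)} (h : Good g) (t : Fin 3) :
    Good (g * (![ModularGroup.S, ModularGroup.T, ModularGroup.T⁻¹] t)) := by
  have key : ∀ (h : G) (i : Fin 18),
      Good ((xrep h * rep i) * (![ModularGroup.S, ModularGroup.T, ModularGroup.T⁻¹] t)) := by
    intro h i
    obtain ⟨w, j, hw⟩ := step i t
    have hx : ∃ h' : G, wmat w = xrep h' := by
      rcases w with _ | b
      · exact ⟨1, by rw [map_one]; rfl⟩
      · exact ⟨Tl b, by rw [xrep_Tl]; rfl⟩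
    obtain ⟨h', hh'⟩ := hx
    refine ⟨h * h', j, ?_⟩
    rw [mul_assoc, map_mul, ← hh', mul_assoc]
    rcases hw with hw | hw
    · left; rw [hw]
    · right; rw [hw, mul_neg]
  obtain ⟨h, i, h1 | h1⟩ := h
  · rw [h1]; exact key h i
  · rw [h1, neg_mul]; exact good_neg (key h i)

theorem good_all (g : SL(2, ℤ)) : Good g := by
  have hg : g ∈ Subgroup.closure {ModularGroup.S, ModularGroup.T} := by
    rw [SpecialLinearGroup.SL2Z_generators]; trivial
  induction hg using Subgroup.closure_induction_right with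
  | one => exact ⟨1, 0, Or.inl (by rw [map_one, rep_zero, one_mul])⟩
  | mul_right x _ y hy ih =>
    rcases hy with rfl | rfl
    · exact good_step ih 0
    · exact good_step ih 1
  | mul_inv_cancel x _ y hy ih =>
    rcases hy with rfl | rfl
    · have : (ModularGroup.S : SL(2, ℤ))⁻¹ = -ModularGroup.S := by decide +kernel
      rw [this, mul_neg]
      exact good_neg (good_step ih 0)
    · exact good_step ih 2

/-- the coefficients of the sides -/
def ltab : Fin 8 → Fin 3 → ℤ := ![![0, 1, 2], ![1, 3, 2], ![2, 3, 1], ![2, 1, 0], ![2, -1, 0],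
  ![2, -3, 1], ![1, -3, 2], ![0, -1, 2]]

theorem Lf_eq (b : Fin 8) (A B C : ℝ) :
    Lf b A B C = (ltab b 0 : ℝ) * A + (ltab b 1 : ℝ) * B + (ltab b 2 : ℝ) * C := by
  fin_cases b <;> simp [Lf, ltab] <;> ring

theorem rep_key : ∀ (i : Fin 18) (b : Fin 8),
    0 ≤ ltab b 0 * rep i 0 0 ^ 2 + ltab b 1 * (rep i 0 0 * rep i 1 0) + ltab b 2 * rep i 1 0 ^ 2 ∧
    0 ≤ ltab b 0 * rep i 0 1 ^ 2 + ltab b 1 * (rep i 0 1 * rep i 1 1) + ltab b 2 * rep i 1 1 ^ 2 ∧
    0 ≤ (ltab b 0 * rep i 0 0 ^ 2 + ltab b 1 * (rep i 0 0 * rep i 1 0) +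
        ltab b 2 * rep i 1 0 ^ 2) +
      (2 * ltab b 0 * rep i 0 0 * rep i 0 1 + ltab b 1 * (rep i 0 0 * rep i 1 1 +
        rep i 0 1 * rep i 1 0) + 2 * ltab b 2 * rep i 1 0 * rep i 1 1) +
      (ltab b 0 * rep i 0 1 ^ 2 + ltab b 1 * (rep i 0 1 * rep i 1 1) +
        ltab b 2 * rep i 1 1 ^ 2) := by
  decide +kernel

theorem rep_oct (i : Fin 18) (z : ℍ) (h1 : 0 ≤ fB z) (h2 : 0 ≤ fC z - fB z)
    (h3 : 0 ≤ fA z - fB z) : rep i • z ∈ Oct := by
  intro b
  obtain ⟨e1, e2, e3⟩ := act_eq (rep i) z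
  obtain ⟨k1, k2, k3⟩ := rep_key i b
  unfold l
  rw [e1, e2, e3, Lf_eq]
  have k1' := Int.cast_nonneg (R := ℝ) k1
  have k2' := Int.cast_nonneg (R := ℝ) k2
  have k3' := Int.cast_nonneg (R := ℝ) k3
  push_cast at k1' k2' k3'
  have m1 := mul_nonneg k1' h3
  have m2 := mul_nonneg k2' h2
  have m3 := mul_nonneg k3' h1
  linarith

theorem cover (z : ℍ) : ∃ g : G, g • z ∈ Oct := by
  -- a point of the triangle `0, 1, ∞`
  have h1 : ∃ (γ : SL(2, ℤ)) (y : ℍ), z = γ • y ∧ 0 ≤ fB y ∧ 0 ≤ fC y - fB y ∧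
      0 ≤ fA y - fB y := by
    obtain ⟨g, hg⟩ := ModularGroup.exists_smul_mem_fd z
    obtain ⟨hg1, hg2⟩ := hg
    have hns : 1 ≤ (g • z).re ^ 2 + (g • z).im ^ 2 := by
      rw [Complex.normSq_apply] at hg1
      have e : ((g • z : ℍ) : ℂ).re = (g • z).re := rfl
      have e' : ((g • z : ℍ) : ℂ).im = (g • z).im := rfl
      rw [e, e'] at hg1
      nlinarith
    rw [abs_le] at hg2
    by_cases hre : 0 ≤ (g • z).re
    · refine ⟨g⁻¹, g • z, (inv_smul_smul g z).symm, ?_, ?_, ?_⟩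
      · unfold fB
        exact div_nonneg hre (g • z).im_pos.le
      · unfold fB fC
        rw [← sub_div]
        exact div_nonneg (by linarith) (g • z).im_pos.le
      · unfold fA fB
        rw [← sub_div]
        exact div_nonneg (by nlinarith) (g • z).im_pos.le
    · refine ⟨g⁻¹ * ModularGroup.T⁻¹, ModularGroup.T • (g • z), ?_, ?_, ?_, ?_⟩
      · rw [mul_smul, inv_smul_smul, inv_smul_smul]
      · unfold fB
        refine div_nonneg ?_ (ModularGroup.T • g • z).im_pos.le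
        rw [ModularGroup.re_T_smul]; linarith
      · unfold fB fC
        rw [← sub_div]
        refine div_nonneg ?_ (ModularGroup.T • g • z).im_pos.le
        rw [ModularGroup.re_T_smul]; linarith
      · unfold fA fB
        rw [← sub_div]
        refine div_nonneg ?_ (ModularGroup.T • g • z).im_pos.le
        rw [ModularGroup.re_T_smul, ModularGroup.im_T_smul]
        nlinarith
  obtain ⟨γ, y, rfl, h2, h3, h4⟩ := h1
  obtain ⟨h, i, hγ⟩ := good_all γ
  refine ⟨h⁻¹, ?_⟩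
  have h5 : γ • y = xrep h • rep i • y := by
    rcases hγ with hγ | hγ
    · rw [hγ, mul_smul]
    · rw [hγ, ModularGroup.SL_neg_smul, mul_smul]
  rw [h5, smul_def, map_inv, inv_smul_smul]
  exact rep_oct i y h2 h3 h4

end TreeX

end Pool.Agent.CircleShift
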